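import Mathlib

set_option autoImplicit false
open Polynomial Filter Topology

namespace Pool.Agent.H.MP_4658d5_ag

abbrev V := Fin 3 → ℂ

noncomputable def pp : MvPolynomial (Fin 3) ℂ :=
  (MvPolynomial.X 0 + 1) * (MvPolynomial.X 0 - 2) *
    (MvPolynomial.X 0 * (MvPolynomial.X 0 - 1) * MvPolynomial.X 1
      - (1 - MvPolynomial.X 0) * MvPolynomial.X 2 ^ 2 - MvPolynomial.X 0 * MvPolynomial.X 2 ^ 3)

def pv (v : V) : ℂ :=
  (v 0 + 1) * (v 0 - 2) * (v 0 * (v 0 - 1) * v 1 - (1 - v 0) * v 2 ^ 2 - v 0 * v 2 ^ 3)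

theorem eval_pp (v : V) : MvPolynomial.eval v pp = pv v := by
  simp [pp, pv]

theorem contr : ContractibleSpace {x : V // MvPolynomial.eval x pp = 0} := by
  rw [contractible_iff_id_nullhomotopic]
  let s : unitInterval → ℂ := fun t => ((max 0 (1 - 2 * (t : ℝ)) : ℝ) : ℂ)
  let u : unitInterval → ℂ := fun t => ((min 1 (2 - 2 * (t : ℝ)) : ℝ) : ℂ)
  let H : unitInterval → V → V := fun t v =>
    ![u t * v 0, s t ^ 2 * (-v 2 ^ 2 - (v 0 - 1) * v 1 + v 2 ^ 3)
      + s t ^ 3 * (v 0 * v 1 + v 2 ^ 2 - v 2 ^ 3), s t * v 2]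
  have hH : ∀ t v, MvPolynomial.eval v pp = 0 → MvPolynomial.eval (H t v) pp = 0 := by
    intro t v hv
    rw [eval_pp] at hv ⊢
    rcases le_total (t : ℝ) (1 / 2) with h | h
    · have : u t = 1 := by simp only [u]; rw [min_eq_left (by linarith)]; simp
      unfold pv at hv ⊢
      simp only [H, this, Matrix.cons_val_zero, Matrix.cons_val_one, Matrix.cons_val]
      linear_combination (s t ^ 3 * v 0 - s t ^ 2 * (v 0 - 1)) * hv
    · have : s t = 0 := by simp only [s]; rw [max_eq_left (by linarith)]; simp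
      simp [pv, H, this]
  refine ⟨⟨0, by rw [eval_pp]; simp [pv]⟩, ⟨⟨⟨fun x => ⟨H x.1 x.2.1, hH _ _ x.2.2⟩, ?_⟩, ?_, ?_⟩⟩⟩
  · refine Continuous.subtype_mk ?_ _
    have hs : Continuous s := by simp only [s]; fun_prop
    have hu : Continuous u := by simp only [u]; fun_prop
    have hv : ∀ i, Continuous fun a : unitInterval × {x : V // MvPolynomial.eval x pp = 0} =>
        a.2.1 i := fun i => (continuous_apply i).comp (continuous_subtype_val.comp continuous_snd)
    have h0 := hv 0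
    have h1 := hv 1
    have h2 := hv 2
    have hs' := hs.comp (continuous_fst (Y := {x : V // MvPolynomial.eval x pp = 0}))
    have hu' := hu.comp (continuous_fst (Y := {x : V // MvPolynomial.eval x pp = 0}))
    refine continuous_pi fun i => ?_
    fin_cases i
    · exact hu'.mul h0
    · exact ((hs'.pow 2).mul (((h2.pow 2).neg.sub ((h0.sub continuous_const).mul h1)).add (h2.pow 3))).add
        ((hs'.pow 3).mul (((h0.mul h1).add (h2.pow 2)).sub (h2.pow 3)))
    · exact hs'.mul h2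
  · intro x
    apply Subtype.ext
    funext i
    fin_cases i <;> simp [H, s, u]
    ring
  · intro x
    apply Subtype.ext
    funext i
    fin_cases i <;> simp [H, s, u]

def D (x : ℂ) : ℂ := (x + 1) * (x - 2) * x * (x - 1)

noncomputable def Dp : ℂ[X] := (X + 1) * (X - 2) * X * (X - 1)

theorem eval_Dp (x : ℂ) : Dp.eval x = D x := by simp [Dp, D]

theorem finite_D : {x | D x = 0}.Finite := by
  refine (Set.toFinite ({-1, 2, 0, 1} : Set ℂ)).subset fun x hx => ?_
  simp only [D, Set.mem_ofPred_eq, mul_eq_zero, add_eq_zero_iff_eq_neg, sub_eq_zero] at hx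
  simp only [Set.mem_insert_iff, Set.mem_singleton_iff]
  tauto

theorem ev_notMem {R : Set ℂ} (hR : R.Finite) (s : ℂ) : ∀ᶠ x in 𝓝[≠] s, x ∉ R :=
  nhdsNE_le_cofinite s hR.eventually_cofinite_notMem

noncomputable def pt (c x z : ℂ) : V :=
  ![x, ((x + 1) * (x - 2) * ((1 - x) * z ^ 2 + x * z ^ 3) + c) / D x, z]

theorem pt0 (c x z : ℂ) : pt c x z 0 = x := rfl
theorem pt2 (c x z : ℂ) : pt c x z 2 = z := rfl

theorem pv_pt (c x z : ℂ) (h : D x ≠ 0) : pv (pt c x z) = c := by
  have : D x * (((x + 1) * (x - 2) * ((1 - x) * z ^ 2 + x * z ^ 3) + c) / D x)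
      = (x + 1) * (x - 2) * ((1 - x) * z ^ 2 + x * z ^ 3) + c := by field_simp
  unfold pv
  simp only [pt, Matrix.cons_val_zero, Matrix.cons_val_one, Matrix.cons_val]
  unfold D at this ⊢
  linear_combination this

theorem eq_pt (c : ℂ) (v : V) (hv : pv v = c) (h : D (v 0) ≠ 0) : v = pt c (v 0) (v 2) := by
  funext i
  fin_cases i
  · rfl
  · simp only [pt, Fin.mk_one, Matrix.cons_val_one, Matrix.cons_val_zero]
    rw [eq_div_iff h]
    unfold pv at hv
    unfold D
    linear_combination hv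
  · rfl

def IsP (φ : V → V) : Prop := ∃ f : Fin 3 → MvPolynomial (Fin 3) ℂ,
  ∀ v, φ v = fun i => MvPolynomial.eval v (f i)

theorem IsP.comp {φ ψ : V → V} (h : IsP φ) (h' : IsP ψ) : IsP (φ ∘ ψ) := by
  obtain ⟨f, hf⟩ := h
  obtain ⟨g, hg⟩ := h'
  refine ⟨fun i => MvPolynomial.bind₁ g (f i), fun v => ?_⟩
  funext i
  have := MvPolynomial.aeval_bind₁ v g (f i)
  simp only [MvPolynomial.aeval_eq_eval] at this
  rw [Function.comp_apply, hf, hg, this]

theorem IsP.continuous {φ : V → V} (h : IsP φ) : Continuous φ := by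
  obtain ⟨f, hf⟩ := h
  rw [funext hf]
  exact continuous_pi fun i => MvPolynomial.continuous_eval (f i)

theorem rep (c : ℂ) (q : MvPolynomial (Fin 3) ℂ) : ∃ (N : ℕ) (A : ℂ[X][X]), ∀ x z, D x ≠ 0 →
    MvPolynomial.eval (pt c x z) q * D x ^ N = A.evalEval x z := by
  induction q using MvPolynomial.induction_on with
  | C a => exact ⟨0, C (C a), fun x z _ => by simp [evalEval_C]⟩
  | add p q hp hq =>
    obtain ⟨N, A, hA⟩ := hp
    obtain ⟨M, B, hB⟩ := hq
    refine ⟨N + M, A * C Dp ^ M + B * C Dp ^ N, fun x z h => ?_⟩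
    simp only [map_add, evalEval_add, evalEval_mul, evalEval_pow, evalEval_C, eval_Dp]
    rw [← hA x z h, ← hB x z h]; ring
  | mul_X p i hp =>
    obtain ⟨N, A, hA⟩ := hp
    fin_cases i
    · refine ⟨N, A * C X, fun x z h => ?_⟩
      simp only [map_mul, evalEval_mul, evalEval_C, eval_X, MvPolynomial.eval_X]
      rw [← hA x z h]
      simp only [Fin.zero_eta, pt0]; ring
    · refine ⟨N + 1, A * (C ((X + 1) * (X - 2)) * (C (1 - X) * X ^ 2 + C X * X ^ 3) + C (C c)),
        fun x z h => ?_⟩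
      simp only [map_mul, evalEval_mul, evalEval_add, evalEval_pow, evalEval_X, evalEval_C, eval_X,
        MvPolynomial.eval_X, eval_add, eval_sub, eval_one, eval_C, eval_ofNat]
      rw [← hA x z h]
      simp only [pt, Fin.mk_one, Matrix.cons_val_one, Matrix.cons_val_zero]
      field_simp
      ring
    · refine ⟨N, A * X, fun x z h => ?_⟩
      simp only [map_mul, evalEval_mul, evalEval_X, MvPolynomial.eval_X]
      rw [← hA x z h]
      change _ * z * _ = _
      ring

theorem IsP.rep {φ : V → V} (h : IsP φ) (c : ℂ) (i : Fin 3) : ∃ (N : ℕ) (A : ℂ[X][X]),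
    ∀ x z, D x ≠ 0 → φ (pt c x z) i * D x ^ N = (A.map (evalRingHom x)).eval z := by
  obtain ⟨f, hf⟩ := h
  obtain ⟨N, A, hA⟩ := Pool.Agent.H.MP_4658d5_ag.rep c (f i)
  exact ⟨N, A, fun x z hx => by rw [hf, map_evalRingHom_eval, ← hA x z hx]⟩

theorem IsP.line {φ : V → V} (h : IsP φ) (k z : ℂ) (i : Fin 3) : ∃ q : ℂ[X],
    ∀ y, φ ![k, y, z] i = q.eval y := by
  obtain ⟨f, hf⟩ := h
  refine ⟨MvPolynomial.aeval ![C k, X, C z] (f i), fun y => ?_⟩
  rw [hf]
  have := MvPolynomial.comp_aeval_apply ![C k, X, C z] (Polynomial.aeval y) (f i)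
  simp only [coe_aeval_eq_eval, MvPolynomial.aeval_eq_eval] at this
  have e : (fun j => eval y (![C k, X, C z] j)) = ![k, y, z] := by
    funext j
    fin_cases j <;> simp
  rw [this, e]

theorem deg0 (q : ℂ[X]) (k : ℂ) (h : ∀ z, q.eval z ≠ k) (z : ℂ) : q.eval z = q.coeff 0 := by
  have h1 : (q - C k).degree = 0 := by
    by_contra hc
    obtain ⟨x, hx⟩ := IsAlgClosed.exists_root _ hc
    apply h x
    simpa [sub_eq_zero] using hx
  have h2 := eq_C_of_degree_eq_zero h1
  have h3 : q = C (q.coeff 0) := by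
    rw [sub_eq_iff_eq_add] at h2
    rw [h2]; simp
  conv_lhs => rw [h3, eval_C]

theorem deg1 (p q : ℂ[X]) (h : ∀ z, q.eval (p.eval z) = z) (z z' : ℂ) :
    p.eval z - p.eval z' = p.coeff 1 * (z - z') := by
  have h1 : q.comp p = X := Polynomial.funext fun z => by rw [eval_comp, h, eval_X]
  have h2 := natDegree_comp (p := q) (q := p)
  rw [h1, natDegree_X] at h2
  have h3 : p.natDegree = 1 := Nat.eq_one_of_mul_eq_one_left h2.symm
  have h4 := eq_X_add_C_of_natDegree_le_one h3.le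
  rw [h4]
  simp only [eval_add, eval_mul, eval_C, eval_X, coeff_add, coeff_C_mul, coeff_X_one, mul_one,
    coeff_C_succ, add_zero]
  ring

def BB : Set ℂ[X] := Set.range fun m : Multiset {x // D x = 0} => (m.map fun r => X - C r.1).prod

theorem countable_BB : BB.Countable := by
  have : Finite {x // D x = 0} := finite_D
  exact Set.countable_range _

theorem mk_BB (A : ℂ[X]) (h : ∀ x, D x ≠ 0 → A.eval x ≠ 0) : ∃ B ∈ BB, ∃ κ : ℂ, A = C κ * B := by
  have h1 : ∀ x ∈ A.roots, D x = 0 := fun x hx => by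
    by_contra hc
    exact h x hc (isRoot_of_mem_roots hx)
  refine ⟨_, ⟨A.roots.pmap (fun x hx => ⟨x, hx⟩) h1, rfl⟩, A.leadingCoeff, ?_⟩
  conv_lhs => rw [(IsAlgClosed.splits A).eq_prod_roots]
  simp [Multiset.map_pmap, Multiset.pmap_eq_map]

end Pool.Agent.H.MP_4658d5_ag
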