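import Mathlib
import Pool.Agent.H.MP_4658d5_ag.Basic

set_option autoImplicit false
open Polynomial Filter Topology

namespace Pool.Agent.H.MP_4658d5_ag

structure Iso (c d : ℂ) (φ ψ : V → V) : Prop where
  p1 : IsP φ
  p2 : IsP ψ
  m1 : ∀ v, pv v = c → pv (φ v) = d
  m2 : ∀ v, pv v = d → pv (ψ v) = c
  i1 : ∀ v, pv v = c → ψ (φ v) = v
  i2 : ∀ v, pv v = d → φ (ψ v) = v

variable {c d e : ℂ} {φ ψ φ' ψ' : V → V}

theorem Iso.symm (h : Iso c d φ ψ) : Iso d c ψ φ := ⟨h.p2, h.p1, h.m2, h.m1, h.i2, h.i1⟩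

theorem Iso.trans (h : Iso c d φ ψ) (h' : Iso d e φ' ψ') : Iso c e (φ' ∘ φ) (ψ ∘ ψ') :=
  ⟨h'.p1.comp h.p1, h.p2.comp h'.p2, fun v hv => h'.m1 _ (h.m1 v hv), fun v hv => h.m2 _ (h'.m2 v hv),
    fun v hv => by simp only [Function.comp_apply]; rw [h'.i1 _ (h.m1 v hv), h.i1 v hv],
    fun v hv => by simp only [Function.comp_apply]; rw [h.i2 _ (h'.m2 v hv), h'.i2 v hv]⟩

theorem pv_ne {v : V} (hv : pv v = d) (hd : d ≠ 0) : v 0 ≠ -1 ∧ v 0 ≠ 2 := by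
  constructor <;> intro h <;> apply hd <;> rw [← hv] <;> simp [pv, h]

theorem Iso.xrep (h : Iso c d φ ψ) (hd : d ≠ 0) : ∃ (N : ℕ) (A : ℂ[X]),
    ∀ x z, D x ≠ 0 → φ (pt c x z) 0 * D x ^ N = A.eval x := by
  obtain ⟨N, A, hA⟩ := h.p1.rep c 0
  refine ⟨N, A.coeff 0, fun x z hx => ?_⟩
  rw [hA x z hx, deg0 _ (2 * D x ^ N), coeff_map, coe_evalRingHom]
  intro z' hz'
  rw [← hA x z' hx] at hz'
  exact (pv_ne (h.m1 _ (pv_pt c x z' hx)) hd).2 (mul_right_cancel₀ (pow_ne_zero N hx) hz')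

theorem Iso.fin_fib (h : Iso c d φ ψ) (hc : c ≠ 0) (hd : d ≠ 0) (k : ℂ) :
    {y | ∃ v, pv v = c ∧ v 0 = k ∧ φ v 0 = y}.Finite := by
  by_cases hk : D k = 0
  · have hz : {z : ℂ | z ^ 2 = c / 2 ∨ z ^ 3 = c / 2}.Finite := by
      have h2 : ∀ n : ℕ, 0 < n → {z : ℂ | z ^ n = c / 2}.Finite := fun n hn =>
        ((nthRoots n (c / 2)).toFinset.finite_toSet).subset fun z hz => by
          simpa [mem_nthRoots hn] using hz
      exact (h2 2 (by norm_num)).union (h2 3 (by norm_num))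
    refine (hz.image fun z => φ ![k, 0, z] 0).subset ?_
    rintro y ⟨v, hv, hv0, rfl⟩
    obtain ⟨n1, n2⟩ := pv_ne hv hc
    have hk' : k = 0 ∨ k = 1 := by
      simp only [D, mul_eq_zero, add_eq_zero_iff_eq_neg, sub_eq_zero] at hk
      rw [hv0] at n1 n2
      tauto
    have hall : ∀ y, pv ![k, y, v 2] = c := by
      intro y
      rw [← hv]
      rcases hk' with rfl | rfl <;> simp [pv, hv0]
    refine ⟨v 2, ?_, ?_⟩
    · have := hall 0
      rcases hk' with rfl | rfl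
      · left; simp [pv] at this; linear_combination this / 2
      · right; simp [pv] at this; linear_combination this / 2
    · obtain ⟨q, hq⟩ := h.p1.line k (v 2) 0
      have hq2 := deg0 q 2 fun y => by rw [← hq]; exact (pv_ne (h.m1 _ (hall y)) hd).2
      have e : v = ![k, v 1, v 2] := by
        funext i; fin_cases i <;> simp [hv0]
      simp only
      rw [hq, hq2, e, hq, hq2]
  · obtain ⟨N, A, hA⟩ := h.xrep hd
    refine (Set.finite_singleton (A.eval k / D k ^ N)).subset ?_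
    rintro y ⟨v, hv, hv0, rfl⟩
    rw [Set.mem_singleton_iff, eq_div_iff (pow_ne_zero N hk), ← hA k (v 2) hk, ← hv0,
      ← eq_pt c v hv (hv0 ▸ hk)]

def Trip (c : ℂ) (φ : V → V) (t : ℕ × ℂ[X] × ℂ[X]) : Prop := ∃ κ₁ κ₂ : ℂ, ∀ x z, D x ≠ 0 →
  (φ (pt c x z) 0 + 1) * D x ^ t.1 = κ₁ * t.2.1.eval x ∧
  (φ (pt c x z) 0 - 2) * D x ^ t.1 = κ₂ * t.2.2.eval x

theorem Iso.trip (h : Iso c d φ ψ) (hd : d ≠ 0) :
    ∃ t ∈ (Set.univ : Set ℕ) ×ˢ (BB ×ˢ BB), Trip c φ t := by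
  obtain ⟨N, A, hA⟩ := h.xrep hd
  obtain ⟨B₁, hB₁, κ₁, h₁⟩ := mk_BB (A + Dp ^ N) fun x hx h0 => by
    rw [eval_add, eval_pow, eval_Dp, ← hA x 0 hx] at h0
    refine (pv_ne (h.m1 _ (pv_pt c x 0 hx)) hd).1 (mul_right_cancel₀ (pow_ne_zero N hx) ?_)
    linear_combination h0
  obtain ⟨B₂, hB₂, κ₂, h₂⟩ := mk_BB (A - 2 * Dp ^ N) fun x hx h0 => by
    rw [eval_sub, eval_mul, eval_pow, eval_Dp, ← hA x 0 hx, eval_ofNat] at h0
    refine (pv_ne (h.m1 _ (pv_pt c x 0 hx)) hd).2 (mul_right_cancel₀ (pow_ne_zero N hx) ?_)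
    linear_combination h0
  refine ⟨(N, B₁, B₂), ⟨trivial, hB₁, hB₂⟩, κ₁, κ₂, fun x z hx => ?_⟩
  have e₁ := congrArg (eval x) h₁
  have e₂ := congrArg (eval x) h₂
  simp only [eval_add, eval_sub, eval_mul, eval_pow, eval_Dp, eval_C, eval_ofNat] at e₁ e₂
  rw [← hA x z hx] at e₁ e₂
  exact ⟨by linear_combination e₁, by linear_combination e₂⟩

theorem Iso.same (h : Iso c d φ ψ) (hc : c ≠ 0) (hd : d ≠ 0) (t : ℕ × ℂ[X] × ℂ[X])
    (h1 : Trip c φ t) (h2 : Trip c φ' t) (x z : ℂ) (hx : D x ≠ 0) :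
    φ' (pt c x z) 0 = φ (pt c x z) 0 := by
  obtain ⟨κ₁, κ₂, h1⟩ := h1
  obtain ⟨μ₁, μ₂, h2⟩ := h2
  by_cases hκ : κ₁ = μ₁
  · refine mul_right_cancel₀ (pow_ne_zero t.1 hx) ?_
    have a := (h1 x z hx).1
    have b := (h2 x z hx).1
    rw [hκ] at a
    linear_combination b - a
  exfalso
  have hconst : ∃ k, ∀ x, D x ≠ 0 → φ (pt c x 0) 0 = k := by
    have key : ∀ x, D x ≠ 0 → (φ (pt c x 0) 0 + 1) * (κ₁ * (κ₂ - μ₂) - κ₂ * (κ₁ - μ₁))
        = 3 * κ₁ * (κ₂ - μ₂) := by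
      intro x hx
      obtain ⟨a1, a2⟩ := h1 x 0 hx
      obtain ⟨b1, b2⟩ := h2 x 0 hx
      refine mul_right_cancel₀ (pow_ne_zero t.1 hx) ?_
      linear_combination (κ₁ * (κ₂ - μ₂) - κ₂ * (κ₁ - μ₁)) * a1
        - κ₁ * ((κ₂ - μ₂) * (a1 - a2) - κ₂ * ((a1 - b1) - (a2 - b2)))
    by_cases hΔ : κ₁ * (κ₂ - μ₂) - κ₂ * (κ₁ - μ₁) = 0
    · refine ⟨-1, fun x hx => ?_⟩
      obtain ⟨a1, a2⟩ := h1 x 0 hx
      obtain ⟨b1, b2⟩ := h2 x 0 hx
      have k1 := key x hx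
      rw [hΔ, mul_zero] at k1
      have k2 : κ₁ * t.2.1.eval x = 0 := by
        refine mul_left_cancel₀ (sub_ne_zero.2 hκ) ?_
        linear_combination (-κ₁) * ((a1 - b1) - (a2 - b2)) - t.2.2.eval x / 3 * k1
      rw [k2] at a1
      have := (mul_eq_zero.1 a1).resolve_right (pow_ne_zero _ hx)
      linear_combination this
    · refine ⟨3 * κ₁ * (κ₂ - μ₂) / (κ₁ * (κ₂ - μ₂) - κ₂ * (κ₁ - μ₁)) - 1, fun x hx => ?_⟩
      rw [← key x hx]; field_simp; ring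
  obtain ⟨k, hk⟩ := hconst
  have hf := (h.symm.fin_fib hd hc k).union finite_D
  refine Set.infinite_univ (hf.subset fun x _ => ?_)
  by_cases hx : D x = 0
  · exact Or.inr hx
  · exact Or.inl ⟨_, h.m1 _ (pv_pt c x 0 hx), hk x hx, by rw [h.i1 _ (pv_pt c x 0 hx), pt0]⟩

def XP (d : ℂ) (φ : V → V) : Prop := ∃ R : Set ℂ, R.Finite ∧ ∀ v, pv v = d → v 0 ∉ R → φ v 0 = v 0

theorem Iso.xp (h : Iso c d φ ψ) (hc : c ≠ 0) (hd : d ≠ 0)
    (hs : ∀ x z, D x ≠ 0 → φ' (pt c x z) 0 = φ (pt c x z) 0) : XP d (φ' ∘ ψ) := by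
  refine ⟨_, finite_D.biUnion fun k _ => h.fin_fib hc hd k, fun v hv hR => ?_⟩
  have h1 : D (ψ v 0) ≠ 0 := fun h0 => hR (Set.mem_biUnion h0 ⟨ψ v, h.m2 v hv, rfl, by rw [h.i2 v hv]⟩)
  have h2 := eq_pt c _ (h.m2 v hv) h1
  rw [Function.comp_apply, h2, hs _ _ h1, ← h2, h.i2 v hv]

theorem XP.ext (h : XP d φ) (hφ : IsP φ) (s z : ℂ) (P : V)
    (hP : Tendsto (fun x => pt d x z) (𝓝[≠] s) (𝓝 P)) : φ P 0 = s := by
  obtain ⟨R, hR, h⟩ := h
  have h1 : Tendsto (fun x => φ (pt d x z) 0) (𝓝[≠] s) (𝓝 (φ P 0)) :=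
    (((continuous_apply 0).comp hφ.continuous).tendsto P).comp hP
  have h2 : Tendsto (fun x : ℂ => x) (𝓝[≠] s) (𝓝 s) := tendsto_id.mono_left nhdsWithin_le_nhds
  refine tendsto_nhds_unique h1 (h2.congr' ?_)
  filter_upwards [ev_notMem hR s, ev_notMem finite_D s] with x h3 h4
  exact (h _ (pv_pt d x z h4) h3).symm

theorem XP.gen (h : XP d φ) (hφ : IsP φ) (x z : ℂ) (hx : D x ≠ 0) : φ (pt d x z) 0 = x := by
  refine h.ext hφ x z _ (Tendsto.mono_left ?_ nhdsWithin_le_nhds)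
  refine ContinuousAt.tendsto (f := fun x => pt d x z) (continuousAt_pi.2 fun i => ?_)
  fin_cases i
  · exact continuousAt_id
  · exact ContinuousAt.div (by fun_prop) (by unfold D; fun_prop) hx
  · exact continuousAt_const

theorem Iso.slope (h : Iso d e φ ψ) (h1 : XP d φ) : ∃ B ∈ BB, ∃ (N : ℕ) (κ : ℂ),
    ∀ x z z', D x ≠ 0 → φ (pt d x z) 2 - φ (pt d x z') 2 = κ * (B.eval x / D x ^ N) * (z - z') := by
  obtain ⟨N, A, hA⟩ := h.p1.rep d 2
  obtain ⟨M, A', hA'⟩ := h.p2.rep e 2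
  have key : ∀ x z z', D x ≠ 0 → φ (pt d x z) 2 - φ (pt d x z') 2
      = (A.coeff 1).eval x / D x ^ N * (z - z') := by
    intro x z z' hx
    have e1 : ∀ z, (C (D x ^ N)⁻¹ * A.map (evalRingHom x)).eval z = φ (pt d x z) 2 := by
      intro z
      rw [eval_mul, eval_C, ← hA x z hx]; field_simp
    have e2 : ∀ z, (C (D x ^ M)⁻¹ * A'.map (evalRingHom x)).eval z = ψ (pt e x z) 2 := by
      intro z
      rw [eval_mul, eval_C, ← hA' x z hx]; field_simp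
    have := deg1 (C (D x ^ N)⁻¹ * A.map (evalRingHom x)) (C (D x ^ M)⁻¹ * A'.map (evalRingHom x))
      (fun z => by
        have h3 := h1.gen h.p1 x z hx
        have h4 := eq_pt e _ (h.m1 _ (pv_pt d x z hx)) (by rw [h3]; exact hx)
        rw [h3] at h4
        rw [e1, e2, ← h4, h.i1 _ (pv_pt d x z hx), pt2]) z z'
    rw [e1, e1, coeff_C_mul, coeff_map, coe_evalRingHom] at this
    rw [this]; ring
  obtain ⟨B, hB, κ, hκ⟩ := mk_BB (A.coeff 1) fun x hx h0 => by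
    have h3 := key x 1 0 hx
    rw [h0, zero_div, zero_mul, sub_eq_zero] at h3
    have h4 := eq_pt e _ (h.m1 _ (pv_pt d x 1 hx)) (by rw [h1.gen h.p1 x 1 hx]; exact hx)
    have h5 := eq_pt e _ (h.m1 _ (pv_pt d x 0 hx)) (by rw [h1.gen h.p1 x 0 hx]; exact hx)
    rw [h1.gen h.p1 x _ hx] at h4 h5
    rw [h3, ← h5] at h4
    have h6 := congrArg (fun v => ψ v 2) h4
    simp only [h.i1 _ (pv_pt d x _ hx), pt2] at h6
    exact one_ne_zero h6
  refine ⟨B, hB, N, κ, fun x z z' hx => ?_⟩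
  rw [key x z z' hx, hκ, eval_mul, eval_C]; ring

theorem curve (s ζ : ℂ) (n : ℕ) (hs : (s = 0 ∧ n = 2) ∨ (s = 1 ∧ n = 3)) (hζ : ζ ^ n = d / 2) :
    ∃ P : V, pv P = d ∧ Tendsto (fun x => pt d x ζ) (𝓝[≠] s) (𝓝 P) := by
  have hd : d = 2 * ζ ^ n := by linear_combination -2 * hζ
  rcases hs with ⟨rfl, rfl⟩ | ⟨rfl, rfl⟩
  · let γ : ℂ → V := fun x => ![x, ((x - 1) * ζ ^ 2 + (x + 1) * (x - 2) * (ζ ^ 3 - ζ ^ 2))
      / ((x + 1) * (x - 2) * (x - 1)), ζ]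
    refine ⟨γ 0, by simp [γ, pv, hd], ?_⟩
    have h1 : ContinuousAt γ 0 := continuousAt_pi.2 fun i => by
      fin_cases i
      · exact continuousAt_id
      · exact ContinuousAt.div (by fun_prop) (by fun_prop) (by norm_num)
      · exact continuousAt_const
    refine (h1.tendsto.mono_left nhdsWithin_le_nhds).congr' ?_
    filter_upwards [ev_notMem finite_D 0] with x hx
    have hx' : D x ≠ 0 := hx
    funext i
    fin_cases i
    · rfl
    · simp only [γ, pt, Fin.mk_one, Matrix.cons_val_one, Matrix.cons_val_zero]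
      rw [div_eq_div_iff (fun h0 => hx' (by unfold D; linear_combination x * h0)) hx', hd]
      unfold D; ring
    · rfl
  · let γ : ℂ → V := fun x => ![x, (x * ζ ^ 3 + (x + 1) * (x - 2) * (ζ ^ 3 - ζ ^ 2))
      / ((x + 1) * (x - 2) * x), ζ]
    refine ⟨γ 1, by simp [γ, pv, hd]; ring, ?_⟩
    have h1 : ContinuousAt γ 1 := continuousAt_pi.2 fun i => by
      fin_cases i
      · exact continuousAt_id
      · exact ContinuousAt.div (by fun_prop) (by fun_prop) (by norm_num)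
      · exact continuousAt_const
    refine (h1.tendsto.mono_left nhdsWithin_le_nhds).congr' ?_
    filter_upwards [ev_notMem finite_D 1] with x hx
    have hx' : D x ≠ 0 := hx
    funext i
    fin_cases i
    · rfl
    · simp only [γ, pt, Fin.mk_one, Matrix.cons_val_one, Matrix.cons_val_zero]
      rw [div_eq_div_iff (fun h0 => hx' (by unfold D; linear_combination (x - 1) * h0)) hx', hd]
      unfold D; ring
    · rfl

theorem Iso.lim (h : Iso d e φ ψ) (h1 : XP d φ) (α : ℂ → ℂ)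
    (hα : ∀ x z z', D x ≠ 0 → φ (pt d x z) 2 - φ (pt d x z') 2 = α x * (z - z'))
    (s ζ ζ' : ℂ) (n : ℕ) (hs : (s = 0 ∧ n = 2) ∨ (s = 1 ∧ n = 3)) (hζ : ζ ^ n = d / 2)
    (hζ' : ζ' ^ n = d / 2) (hne : ζ ≠ ζ') :
    ∃ u u' : ℂ, u ^ n = e / 2 ∧ u' ^ n = e / 2 ∧ Tendsto α (𝓝[≠] s) (𝓝 ((u - u') / (ζ - ζ'))) := by
  have key : ∀ ζ, ζ ^ n = d / 2 → ∃ u, u ^ n = e / 2 ∧
      Tendsto (fun x => φ (pt d x ζ) 2) (𝓝[≠] s) (𝓝 u) := by
    intro ζ hζ
    obtain ⟨P, hP, hP'⟩ := curve s ζ n hs hζ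
    refine ⟨φ P 2, ?_, (((continuous_apply 2).comp h.p1.continuous).tendsto P).comp hP'⟩
    have h3 := h1.ext h.p1 s ζ P hP'
    have h4 := h.m1 P hP
    unfold pv at h4
    rw [h3] at h4
    rcases hs with ⟨rfl, rfl⟩ | ⟨rfl, rfl⟩ <;> linear_combination h4 / 2
  obtain ⟨u, hu, hu'⟩ := key ζ hζ
  obtain ⟨u', hv, hv'⟩ := key ζ' hζ'
  refine ⟨u, u', hu, hv, ((hu'.sub hv').div_const (ζ - ζ')).congr' ?_⟩
  filter_upwards [ev_notMem finite_D s] with x hx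
  rw [hα x ζ ζ' hx, mul_div_cancel_right₀ _ (sub_ne_zero.2 hne)]

theorem two_roots (hd : d ≠ 0) (n : ℕ) (hn : n = 2 ∨ n = 3) :
    ∃ ζ ζ' : ℂ, ζ ^ n = d / 2 ∧ ζ' ^ n = d / 2 ∧ ζ ≠ ζ' := by
  have hn1 : 1 < n := by omega
  obtain ⟨ζ, hζ⟩ := IsAlgClosed.exists_pow_nat_eq (d / 2) (n := n) (by omega)
  have hω := Complex.isPrimitiveRoot_exp n (by omega)
  refine ⟨ζ, ζ * _, hζ, by rw [mul_pow, hω.pow_eq_one, mul_one, hζ], fun h => ?_⟩
  have h0 : ζ ≠ 0 := by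
    rintro rfl
    rw [zero_pow (by omega)] at hζ
    exact hd (by linear_combination -2 * hζ)
  exact hω.ne_one hn1 (mul_left_cancel₀ h0 (by rw [mul_one]; exact h.symm))

theorem diff6 (u v a : ℂ) (n : ℕ) (hn : n = 2 ∨ n = 3) (hu : u ^ n = a) (hv : v ^ n = a) (h : u ≠ v) :
    (u - v) ^ 6 = (if n = 2 then 64 * a ^ 3 else -27 * a ^ 2) := by
  have h0 := sub_ne_zero.2 h
  rcases hn with rfl | rfl
  · have : u + v = 0 := mul_left_cancel₀ h0 (by linear_combination hu - hv)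
    have h1 : v = -u := by linear_combination this
    rw [if_pos rfl, h1, ← hu]; ring
  · have : u ^ 2 + u * v + v ^ 2 = 0 := mul_left_cancel₀ h0 (by linear_combination hu - hv)
    have h1 : (u - v) ^ 2 = -3 * (u * v) := by linear_combination this
    rw [if_neg (by norm_num)]
    calc (u - v) ^ 6 = ((u - v) ^ 2) ^ 3 := by ring
      _ = -27 * (u ^ 3 * v ^ 3) := by rw [h1]; ring
      _ = _ := by rw [hu, hv]; ring

noncomputable def TT : Set ℂ := (fun t : ℂ[X] × ℕ =>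
  (limUnder (𝓝[≠] 0) (fun x => t.1.eval x / D x ^ t.2)
    / limUnder (𝓝[≠] 1) (fun x => t.1.eval x / D x ^ t.2)) ^ 6) '' (BB ×ˢ Set.univ)

theorem countable_TT : TT.Countable := (countable_BB.prod Set.countable_univ).image _

theorem Iso.ratio (h : Iso d e φ ψ) (hd : d ≠ 0) (he : e ≠ 0) (h1 : XP d φ) (h2 : XP e ψ) :
    e / d ∈ TT := by
  obtain ⟨B, hB, N, κ, hα⟩ := h.slope h1
  obtain ⟨B', -, N', κ', hα'⟩ := h.symm.slope h2
  have hinv : ∀ x, D x ≠ 0 → κ' * (B'.eval x / D x ^ N') * (κ * (B.eval x / D x ^ N)) = 1 := by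
    intro x hx
    have h4 := eq_pt e _ (h.m1 _ (pv_pt d x 1 hx)) (by rw [h1.gen h.p1 x 1 hx]; exact hx)
    have h5 := eq_pt e _ (h.m1 _ (pv_pt d x 0 hx)) (by rw [h1.gen h.p1 x 0 hx]; exact hx)
    rw [h1.gen h.p1 x _ hx] at h4 h5
    have h6 := hα' x (φ (pt d x 1) 2) (φ (pt d x 0) 2) hx
    rw [← h4, ← h5, h.i1 _ (pv_pt d x _ hx), h.i1 _ (pv_pt d x _ hx), pt2, pt2, hα x 1 0 hx] at h6
    linear_combination -h6
  have key : ∀ (s : ℂ) (n : ℕ), (s = 0 ∧ n = 2) ∨ (s = 1 ∧ n = 3) →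
      (κ * limUnder (𝓝[≠] s) (fun x => B.eval x / D x ^ N)) ^ 6
        = if n = 2 then (e / d) ^ 3 else (e / d) ^ 2 := by
    intro s n hs
    have hn : n = 2 ∨ n = 3 := by tauto
    obtain ⟨ζ, ζ', a1, a2, a3⟩ := two_roots hd n hn
    obtain ⟨η, η', b1, b2, b3⟩ := two_roots he n hn
    obtain ⟨u, u', c1, c2, c3⟩ := h.lim h1 _ hα s ζ ζ' n hs a1 a2 a3
    obtain ⟨w, w', -, -, d3⟩ := h.symm.lim h2 _ hα' s η η' n hs b1 b2 b3
    have h3 : (w - w') / (η - η') * ((u - u') / (ζ - ζ')) = 1 := by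
      refine tendsto_nhds_unique (d3.mul c3) (tendsto_const_nhds.congr' ?_)
      filter_upwards [ev_notMem finite_D s] with x hx
      exact (hinv x hx).symm
    have hu : u ≠ u' := by
      rintro rfl
      simp at h3
    have hκ : κ ≠ 0 := by
      rintro rfl
      obtain ⟨x, hx⟩ := finite_D.exists_notMem
      have := hinv x hx
      simp at this
    have h4 : Tendsto (fun x => B.eval x / D x ^ N) (𝓝[≠] s) (𝓝 (κ⁻¹ * ((u - u') / (ζ - ζ')))) :=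
      (c3.const_mul κ⁻¹).congr fun x => by rw [inv_mul_cancel_left₀ hκ]
    rw [h4.limUnder_eq, mul_inv_cancel_left₀ hκ, div_pow, diff6 u u' _ n hn c1 c2 hu,
      diff6 ζ ζ' _ n hn a1 a2 a3]
    split_ifs <;> field_simp
  have k0 := key 0 2 (Or.inl ⟨rfl, rfl⟩)
  have k1 := key 1 3 (Or.inr ⟨rfl, rfl⟩)
  rw [if_pos rfl] at k0
  rw [if_neg (by norm_num)] at k1
  refine ⟨(B, N), ⟨hB, trivial⟩, ?_⟩
  have hq : e / d ≠ 0 := div_ne_zero he hd
  have hκ : κ ≠ 0 := by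
    rintro rfl
    rw [zero_mul, zero_pow (by norm_num)] at k0
    exact pow_ne_zero 3 hq k0.symm
  simp only
  rw [← mul_div_mul_left _ _ hκ, div_pow, k0, k1]
  field_simp

theorem main (S : Finset ℂ) (h : ∀ c d, c ∉ S → d ∉ S → ∃ φ ψ, Iso c d φ ψ) : False := by
  have hfin : ((S : Set ℂ) ∪ {0}).Finite := S.finite_toSet.union (Set.finite_singleton 0)
  obtain ⟨c, hc⟩ := hfin.exists_notMem
  have hc1 : c ∉ S := fun h => hc (Or.inl h)
  have hc0 : c ≠ 0 := fun h => hc (Or.inr h)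
  let G : ℕ × ℂ[X] × ℂ[X] → Set ℂ := fun t => {d | d ≠ 0 ∧ ∃ φ ψ, Iso c d φ ψ ∧ Trip c φ t}
  have hG : ∀ t, (G t).Countable := by
    intro t
    rcases (G t).eq_empty_or_nonempty with h0 | ⟨d, hd, φ, ψ, h1, h2⟩
    · rw [h0]; exact Set.countable_empty
    refine (countable_TT.image fun r => r * d).mono ?_
    rintro e ⟨he, φ', ψ', h3, h4⟩
    refine ⟨e / d, (h1.symm.trans h3).ratio hd he ?_ ?_, div_mul_cancel₀ e hd⟩
    · exact h1.xp hc0 hd (h1.same hc0 hd t h2 h4)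
    · exact h3.xp hc0 he (h3.same hc0 he t h4 h2)
  have hT : ((Set.univ : Set ℕ) ×ˢ (BB ×ˢ BB)).Countable :=
    Set.countable_univ.prod (countable_BB.prod countable_BB)
  have : Uncountable ℂ := Complex.ofReal_injective.uncountable
  refine Set.not_countable_univ (α := ℂ) ((hfin.countable.union (hT.biUnion fun t _ => hG t)).mono ?_)
  intro d _
  by_cases hd : d ∈ (S : Set ℂ) ∪ {0}
  · exact Or.inl hd
  · right
    have hd0 : d ≠ 0 := fun h => hd (Or.inr h)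
    obtain ⟨φ, ψ, h1⟩ := h c d hc1 fun h => hd (Or.inl h)
    obtain ⟨t, ht, h2⟩ := h1.trip hd0
    exact Set.mem_biUnion ht ⟨hd0, φ, ψ, h1, h2⟩

end Pool.Agent.H.MP_4658d5_ag
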